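import Pool.Agent.Lib.MP_288833_lc.Affine

/-!
A criterion for synchronization of the permutation groups of degree `p ^ 2` and `p ^ 3` containing
a regular elementary abelian subgroup, and for the ranks `p` and `p ^ (d - 1)` in any dimension.
-/

namespace Pool.Agent.Results.MP_288833_lc.LinearCriterion

open Pool.Agent.SyncPerm

/-- Let `V` be a vector space of dimension `d ≥ 2` over the field with `p` elements and `G` a
permutation group on `V` containing all the translations. Then `G` has a section-regular map of
rank `p`, or of rank `p ^ (d - 1)`, iff some orbit of the stabilizer of `0` in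
`withMultipliers G` on the nonzero vectors misses some hyperplane; if `d ≤ 3` this is also
equivalent to `G` not being synchronizing. When `G` is the affine group `V ⋊ H` the condition
says that some orbit of `H` on the nonzero vectors misses some hyperplane. -/
theorem result (p : ℕ) [Fact p.Prime] {V : Type*} [AddCommGroup V] [Module (ZMod p) V] [Finite V]
    (hd : 2 ≤ Module.finrank (ZMod p) V) (G : Subgroup (Equiv.Perm V))
    (hG : ∀ a : V, Equiv.addRight a ∈ G) :
    (HasMinRank G p ↔ OrbitMissesHyperplane p G) ∧
    (HasMinRank G (p ^ (Module.finrank (ZMod p) V - 1)) ↔ OrbitMissesHyperplane p G) ∧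
    (Module.finrank (ZMod p) V ≤ 3 → (¬ Synchronizing G ↔ OrbitMissesHyperplane p G)) ∧
    (∀ H : Subgroup (V ≃ₗ[ZMod p] V),
      (∀ g : Equiv.Perm V, g ∈ G ↔ ∃ h ∈ H, ∃ c : V, ∀ x, g x = h x + c) →
      (OrbitMissesHyperplane p G ↔ ∃ v : V, v ≠ 0 ∧ ∃ w : V →ₗ[ZMod p] ZMod p, w ≠ 0 ∧
        ∀ h ∈ H, w (h v) ≠ 0)) := by
  obtain ⟨h1, h2, h3⟩ := linear_criterion_full hd G hG
  refine ⟨h1, h2, h3, ?_⟩
  intro H hH
  have hV : Nontrivial V := by
    apply Module.nontrivial_of_finrank_pos (R := ZMod p)
    omega
  exact orbitMisses_affine hV G H hH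

end Pool.Agent.Results.MP_288833_lc.LinearCriterion
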