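import Pool.Agent.Lib.MP_288833_lc.Rational

/-!
Synchronization and multipliers: for a permutation group containing a regular abelian subgroup,
adjoining the maps `x ↦ m • x` changes neither synchronization nor the ranks of the section-regular
maps.
-/

namespace Pool.Agent.Results.MP_288833_lc.MultiplierReduction

open Pool.Agent.SyncPerm

/-- Let `G` be a permutation group on a finite abelian group `R` which contains all the
translations. Then `G` is synchronizing iff the group generated by `G` and the permutations
`x ↦ m • x` is, and the two groups have the same minimal ranks of singular maps. -/
theorem result {R : Type*} [AddCommGroup R] [Finite R] (G : Subgroup (Equiv.Perm R))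
    (hG : ∀ a : R, Equiv.addRight a ∈ G) :
    (Synchronizing G ↔ Synchronizing (withMultipliers G)) ∧
      ∀ r : ℕ, (HasMinRank G r ↔ HasMinRank (withMultipliers G) r) :=
  ⟨synchronizing_iff_withMultipliers G hG, hasMinRank_iff_withMultipliers G hG⟩

end Pool.Agent.Results.MP_288833_lc.MultiplierReduction
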