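import Pool.Agent.Lib.MP_288833_lc.Regular

/-!
Synchronization of transitive groups of degree `p ^ 2`.
-/

namespace Pool.Agent.Results.MP_288833_lc.PrimeSquareDegree

open Pool.Agent.SyncPerm

/-- Let `G` be a transitive permutation group of degree `p ^ 2`, `p` prime. Then the set carries an
abelian group structure all of whose translations lie in `G`, and for every such structure `G` is
synchronizing iff the group generated by `G` and the permutations `x ↦ m • x` is 2-transitive. -/
theorem result (p : ℕ) [Fact p.Prime] {Ω : Type*} [Finite Ω] (hΩ : Nat.card Ω = p ^ 2)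
    (G : Subgroup (Equiv.Perm Ω)) (hG : ∀ x y : Ω, ∃ g ∈ G, g x = y) :
    (∃ inst : AddCommGroup Ω, ∀ a : Ω, @Equiv.addRight Ω inst.toAddGroup a ∈ G) ∧
    ∀ inst : AddCommGroup Ω, (∀ a : Ω, @Equiv.addRight Ω inst.toAddGroup a ∈ G) →
      (Synchronizing G ↔ ∀ x y x' y' : Ω, x ≠ y → x' ≠ y' →
        ∃ g ∈ @withMultipliers Ω inst G, g x = x' ∧ g y = y') := by
  constructor
  · obtain ⟨Q, hQG, hQ, hQt⟩ := exists_transitive_pgroup p hΩ G hG
    obtain ⟨H, hHQ, hHc, hHt⟩ := exists_transitive_comm p hΩ Q hQ hQt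
    have hne : Nonempty Ω := by
      apply (Nat.card_pos_iff.1 _).1
      rw [hΩ]
      exact pow_pos (Fact.out : p.Prime).pos 2
    obtain ⟨inst, hinst⟩ := exists_addCommGroup H hHc hHt
    exact ⟨inst, fun a => hQG (hHQ (hinst a))⟩
  · intro inst hinst
    exact synchronizing_iff_two_transitive p hΩ G hinst

end Pool.Agent.Results.MP_288833_lc.PrimeSquareDegree
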