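import Pool.Agent.Lib.MP_288833_lc.DiagC

/-!
Synchronization for permutation groups containing the left and the right translations of a finite
group (primitive groups of diagonal type with two socle factors, affine groups, and all groups with
a regular abelian subgroup): the witnessing graphs can be chosen closed under power maps.
-/

namespace Pool.Agent.Results.MP_288833_lc.RationalWitness

open Pool.Agent.SyncPerm

/-- Let `G` be a permutation group on a finite group `T` which contains all the left and all the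
right translations. Then `G` has a section-regular map of rank `r` iff there is a `G`-invariant
graph on `T`, not complete, whose set of neighbours of `1` is closed under the maps `x ↦ x ^ m`
with `m` coprime to the order of `T`, and which has both a clique of size `r` and a proper
colouring with `r` colours; and `G` is not synchronizing iff there is such a graph for some
`r ≥ 2`. -/
theorem result {T : Type*} [Group T] [Finite T] (G : Subgroup (Equiv.Perm T))
    (hL : ∀ s : T, Equiv.mulLeft s ∈ G) (hR : ∀ t : T, Equiv.mulRight t ∈ G) :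
    (∀ r : ℕ, HasMinRank G r ↔
      ∃ Γ : SimpleGraph T, Γ ≠ ⊤ ∧ (∀ g ∈ G, ∀ x y : T, Γ.Adj x y → Γ.Adj (g x) (g y)) ∧
        (∀ m : ℕ, m.Coprime (Nat.card T) → ∀ x : T, Γ.Adj 1 x → Γ.Adj 1 (x ^ m)) ∧
        (∃ s : Finset T, Γ.IsNClique r s) ∧ Γ.Colorable r) ∧
    (¬ Synchronizing G ↔ ∃ r : ℕ, 2 ≤ r ∧
      ∃ Γ : SimpleGraph T, Γ ≠ ⊤ ∧ (∀ g ∈ G, ∀ x y : T, Γ.Adj x y → Γ.Adj (g x) (g y)) ∧
        (∀ m : ℕ, m.Coprime (Nat.card T) → ∀ x : T, Γ.Adj 1 x → Γ.Adj 1 (x ^ m)) ∧
        (∃ s : Finset T, Γ.IsNClique r s) ∧ Γ.Colorable r) := by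
  have h1 : ∀ r : ℕ, HasMinRank G r ↔
      ∃ Γ : SimpleGraph T, Γ ≠ ⊤ ∧ (∀ g ∈ G, ∀ x y : T, Γ.Adj x y → Γ.Adj (g x) (g y)) ∧
        (∀ m : ℕ, m.Coprime (Nat.card T) → ∀ x : T, Γ.Adj 1 x → Γ.Adj 1 (x ^ m)) ∧
        (∃ s : Finset T, Γ.IsNClique r s) ∧ Γ.Colorable r := by
    intro r
    constructor
    · exact exists_rational_graph G hL hR r
    · rintro ⟨Γ, hne, hΓ, -, ⟨s, hs⟩, hc⟩
      exact hasMinRank_of_graph G r Γ hΓ hne s hs hc
  refine ⟨h1, ?_⟩
  rw [not_synchronizing_iff]
  simp only [h1]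

end Pool.Agent.Results.MP_288833_lc.RationalWitness
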